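import Pool.Agent.E8helper50.SR.S4
import Pool.Agent.E8helper38.SR.MAT

/-!
# Project SR (MP_1a662b_al), piece QM0
-/

set_option autoImplicit false

universe u

namespace Pool.Agent.E8helper40.SR

open Pool.Agent.E8helper50.SR

theorem z2 : ∀ j : ZMod 2, j = 0 ∨ j = 1 := by decide

/-- the even part of a graded semiprime superalgebra is semiprime -/
theorem sp0 {K : Type u} [Field K] (B : SAlg K) (hB : GSP B) (g : B) (hg : g ∈ B.gr 0)
    (h0 : g ≠ 0) : ∃ h ∈ B.gr 0, g * h * g ≠ 0 := by
  obtain ⟨j, w, hw, hne⟩ := hB 0 g hg h0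
  have hj : j = 0 ∨ j = 1 := z2 j
  rcases hj with rfl | rfl
  · exact ⟨w, hw, hne⟩
  · have hz : g * w * g ∈ B.gr 1 := by
      have h1 := B.mul_mem 0 1 _ _ hg hw
      have h2 := B.mul_mem _ 0 _ _ h1 hg
      have e : (0 + 1 + 0 : ZMod 2) = 1 := by decide
      rwa [e] at h2
    obtain ⟨j', w', hw', hne'⟩ := hB 1 _ hz hne
    have hj' : j' = 0 ∨ j' = 1 := z2 j'
    rcases hj' with rfl | rfl
    · refine ⟨w', hw', fun hc => hne' ?_⟩
      have : g * w * g * w' * (g * w * g) = g * w * (g * w' * g) * w * g := by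
        simp only [mul_assoc]
      rw [this, hc]
      simp
    · refine ⟨w * g * w', ?_, fun hc => hne' ?_⟩
      · have h1 := B.mul_mem 1 0 _ _ hw hg
        have h2 := B.mul_mem _ 1 _ _ h1 hw'
        have e : (1 + 0 + 1 : ZMod 2) = 0 := by decide
        rwa [e] at h2
      · have : g * w * g * w' * (g * w * g) = g * (w * g * w') * g * w * g := by
          simp only [mul_assoc]
        rw [this, hc]
        simp

/-- the even part -/
def R0 {K : Type u} [Field K] (B : SAlg K) : NonUnitalSubalgebra K B where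
  carrier := B.gr 0
  add_mem' := fun ha hb => (B.gr 0).add_mem ha hb
  zero_mem' := (B.gr 0).zero_mem
  mul_mem' := fun {a b} ha hb => by
    have h := B.mul_mem 0 0 a b ha hb
    have e : (0 + 0 : ZMod 2) = 0 := by decide
    rw [e] at h
    exact h
  smul_mem' := fun c _ hx => (B.gr 0).smul_mem c hx

theorem mem_R0 {K : Type u} [Field K] {B : SAlg K} {x : B} : x ∈ R0 B ↔ x ∈ B.gr 0 := Iff.rfl

/-- the unitization of a semiprime finite dimensional algebra has no radical -/
theorem jac {K : Type u} [Field K] {R : Type u} [NonUnitalRing R] [Module K R]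
    [IsScalarTower K R R] [SMulCommClass K R R] [Module.Finite K R]
    (h : ∀ r : R, r ≠ 0 → ∃ s : R, r * s * r ≠ 0) : Ring.jacobson (Unitization K R) = ⊥ := by
  have hfU : Module.Finite K (Unitization K R) :=
    Module.Finite.equiv (Unitization.linearEquiv K K R).symm
  have hA : IsArtinianRing (Unitization K R) := IsArtinianRing.of_finite K _
  have hS : IsSemiprimaryRing (Unitization K R) := inferInstance
  obtain ⟨k, hk⟩ := hS.isNilpotent
  rw [eq_bot_iff]
  intro x hx
  have hxk : x ^ k = 0 := by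
    have := Ideal.pow_mem_pow hx k
    rw [hk] at this
    simpa using this
  have hfst : x.fst = 0 := by
    have h1 : (Unitization.fstHom K R x) ^ k = 0 := by
      rw [← map_pow, hxk, map_zero]
    exact eq_zero_of_pow_eq_zero h1
  have hxr : x = Unitization.inr x.snd := by
    conv_lhs => rw [← Unitization.inl_fst_add_inr_snd_eq x]
    rw [hfst, Unitization.inl_zero, zero_add]
  by_contra hne
  have hs : x.snd ≠ 0 := by
    intro hc
    apply hne
    rw [hxr, hc, Unitization.inr_zero]
    exact Submodule.zero_mem _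
  have key : ∀ n : ℕ, ∃ r : R, r ≠ 0 ∧
      (Unitization.inr r : Unitization K R) ∈ Ring.jacobson (Unitization K R) ∧
      (Unitization.inr r : Unitization K R) ∈ (Ring.jacobson (Unitization K R)) ^ (n + 1) := by
    intro n
    induction n with
    | zero =>
      refine ⟨x.snd, hs, ?_, ?_⟩
      · rw [← hxr]; exact hx
      · rw [zero_add, Submodule.pow_one, ← hxr]; exact hx
    | succ n ih =>
      obtain ⟨r, hr, hrJ, hrn⟩ := ih
      obtain ⟨s, hs⟩ := h r hr
      have h1 : (Unitization.inr s * Unitization.inr r : Unitization K R) ∈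
          Ring.jacobson (Unitization K R) := Ideal.mul_mem_left _ _ hrJ
      have h2 := Ideal.mul_mem_mul hrn h1
      have e : (Unitization.inr (r * s * r) : Unitization K R) =
          Unitization.inr r * (Unitization.inr s * Unitization.inr r) := by
        rw [Unitization.inr_mul, Unitization.inr_mul, mul_assoc]
      refine ⟨r * s * r, hs, ?_, ?_⟩
      · rw [e]
        exact Ideal.mul_mem_left _ _ h1
      · rw [e, Submodule.pow_succ]
        exact h2
  obtain ⟨r, hr, -, hrk⟩ := key k
  rw [Submodule.pow_succ, hk, zero_mul] at hrk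
  have h2 : (Unitization.inr r : Unitization K R) = 0 := by
    simpa using hrk
  exact hr (Unitization.inr_injective (by rw [h2, Unitization.inr_zero]))

/-- ideals of a product of matrix algebras are products of blocks -/
theorem blocks {K : Type u} [Field K] {m : ℕ} {d : Fin m → ℕ}
    (I : Submodule K (∀ i : Fin m, Matrix (Fin (d i)) (Fin (d i)) K))
    (hI : ∀ a, ∀ z ∈ I, a * z ∈ I ∧ z * a ∈ I) :
    ∃ S : Set (Fin m), ∀ x, x ∈ I ↔ ∀ i, i ∉ S → x i = 0 := by
  classical
  let S : Set (Fin m) := {i | ∃ z ∈ I, z i ≠ 0}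
  refine ⟨S, fun x => ⟨?_, ?_⟩⟩
  · intro hx i hi
    by_contra hcon
    exact hi ⟨x, hx, hcon⟩
  · intro hx
    have hIS : ∀ i ∈ S, ∀ a b : Fin (d i), Pool.Agent.E8helper38.SR.e i a b ∈ I := by
      rintro i ⟨z, hz, hzi⟩ a b
      obtain ⟨k, l, hkl⟩ : ∃ k l, z i k l ≠ 0 := by
        by_contra hcon
        push Not at hcon
        exact hzi (Matrix.ext hcon)
      have h1 : (Pool.Agent.E8helper38.SR.e i a k * z * Pool.Agent.E8helper38.SR.e i l b :
          ∀ i : Fin m, Matrix (Fin (d i)) (Fin (d i)) K) ∈ I :=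
        (hI _ _ (hI _ z hz).1).2
      unfold Pool.Agent.E8helper38.SR.e at h1
      rw [Pool.Agent.E8helper38.SR.single_mul_mul, Matrix.single_mul_mul_single, one_mul,
        mul_one] at h1
      have h2 : Pool.Agent.E8helper38.SR.e i a b =
          (z i k l)⁻¹ • (Pi.single i (Matrix.single a b (z i k l)) :
          ∀ i : Fin m, Matrix (Fin (d i)) (Fin (d i)) K) := by
        unfold Pool.Agent.E8helper38.SR.e
        rw [← Pi.single_smul, Matrix.smul_single, smul_eq_mul, inv_mul_cancel₀ hkl]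
      rw [h2]
      exact Submodule.smul_mem _ _ h1
    refine Pool.Agent.E8helper38.SR.mem_of I x fun i k l hne => ?_
    by_cases hi : i ∈ S
    · exact hIS i hi k l
    · exfalso
      apply hne
      rw [hx i hi]
      rfl

/-- extension by zero of a family of matrices along an injective map of the indices -/
noncomputable def ext0 {K : Type u} [Field K] {m k : ℕ} (d : Fin m → ℕ) (τ : Fin k → Fin m) :
    (∀ i : Fin k, Matrix (Fin (d (τ i))) (Fin (d (τ i))) K) →ₗ[K]
      (∀ i : Fin m, Matrix (Fin (d i)) (Fin (d i)) K) :=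
  ∑ i : Fin k, (LinearMap.single K (fun j : Fin m => Matrix (Fin (d j)) (Fin (d j)) K) (τ i)) ∘ₗ
    (LinearMap.proj i)

theorem ext0_apply {K : Type u} [Field K] {m k : ℕ} (d : Fin m → ℕ) (τ : Fin k → Fin m)
    (hτ : Function.Injective τ) (x : ∀ i : Fin k, Matrix (Fin (d (τ i))) (Fin (d (τ i))) K)
    (j : Fin k) : ext0 d τ x (τ j) = x j := by
  unfold ext0
  rw [LinearMap.sum_apply, Finset.sum_apply, Finset.sum_eq_single j]
  · simp
  · intro i _ hij
    simp only [LinearMap.comp_apply, LinearMap.proj_apply, LinearMap.single_apply]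
    rw [Pi.single_eq_of_ne]
    intro h
    exact hij (hτ h).symm
  · intro h
    exact absurd (Finset.mem_univ j) h

theorem ext0_out {K : Type u} [Field K] {m k : ℕ} (d : Fin m → ℕ) (τ : Fin k → Fin m)
    (x : ∀ i : Fin k, Matrix (Fin (d (τ i))) (Fin (d (τ i))) K) (l : Fin m)
    (hl : l ∉ Set.range τ) : ext0 d τ x l = 0 := by
  unfold ext0
  rw [LinearMap.sum_apply, Finset.sum_apply]
  refine Finset.sum_eq_zero fun i _ => ?_
  simp only [LinearMap.comp_apply, LinearMap.proj_apply, LinearMap.single_apply]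
  rw [Pi.single_eq_of_ne]
  intro h
  exact hl ⟨i, h.symm⟩

/-- piece QM0 -/
theorem t_QM0 : S_QM0.{u} := by
  classical
  intro K _ _ B _ hB
  have hfR : Module.Finite K (R0 B) := by
    have : Module.Finite K (B.gr 0) := inferInstance
    exact this
  have hsp : ∀ r : R0 B, r ≠ 0 → ∃ s : R0 B, r * s * r ≠ 0 := by
    intro r hr
    obtain ⟨h, hh, hne⟩ := sp0 B hB r.1 r.2 (fun hc => hr (Subtype.ext hc))
    exact ⟨⟨h, hh⟩, fun hc => hne (congrArg Subtype.val hc)⟩
  have hfU : Module.Finite K (Unitization K (R0 B)) :=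
    Module.Finite.equiv (Unitization.linearEquiv K K (R0 B)).symm
  have hA : IsArtinianRing (Unitization K (R0 B)) := IsArtinianRing.of_finite K _
  have hss : IsSemisimpleRing (Unitization K (R0 B)) :=
    (IsArtinianRing.isSemisimpleRing_iff_jacobson).2 (jac hsp)
  obtain ⟨m, d, -, ⟨e⟩⟩ := IsSemisimpleRing.exists_algEquiv_pi_matrix_of_isAlgClosed K
    (Unitization K (R0 B))
  set I : Submodule K (∀ i : Fin m, Matrix (Fin (d i)) (Fin (d i)) K) :=
    LinearMap.range (e.toLinearMap ∘ₗ
      ((Unitization.inrNonUnitalAlgHom K (R0 B) : R0 B →ₗ[K] Unitization K (R0 B)))) with hI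
  have hmI : ∀ z, z ∈ I ↔ ∃ r : R0 B, e (Unitization.inr r) = z := fun z => Iff.rfl
  obtain ⟨S, hS⟩ := blocks I (by
    intro a z hz
    obtain ⟨r, rfl⟩ := (hmI z).1 hz
    obtain ⟨u, rfl⟩ := e.surjective a
    have hu : u = Unitization.inl u.fst + Unitization.inr u.snd :=
      (Unitization.inl_fst_add_inr_snd_eq u).symm
    constructor
    · refine (hmI _).2 ⟨u.fst • r + u.snd * r, ?_⟩
      rw [← map_mul]
      congr 1
      conv_rhs => rw [hu, add_mul, Unitization.inl_mul_inr, ← Unitization.inr_mul]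
      rw [Unitization.inr_add]
    · refine (hmI _).2 ⟨u.fst • r + r * u.snd, ?_⟩
      rw [← map_mul]
      congr 1
      conv_rhs => rw [hu, mul_add, Unitization.inr_mul_inl, ← Unitization.inr_mul]
      rw [Unitization.inr_add])
  obtain ⟨k, τ, hτ, hτS⟩ : ∃ (k : ℕ) (τ : Fin k → Fin m), Function.Injective τ ∧
      Set.range τ = S := by
    refine ⟨Fintype.card S, fun i => ((Fintype.equivFin S).symm i).1, ?_, ?_⟩
    · intro i j hij
      exact (Fintype.equivFin S).symm.injective (Subtype.ext hij)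
    · ext l
      constructor
      · rintro ⟨i, rfl⟩
        exact ((Fintype.equivFin S).symm i).2
      · intro hl
        exact ⟨Fintype.equivFin S ⟨l, hl⟩, by simp⟩
  have hext : ∀ x, ext0 d τ x ∈ I := by
    intro x
    rw [hS]
    intro i hi
    exact ext0_out d τ x i (by rwa [hτS])
  have hex : ∀ x, ∃ r : R0 B, e (Unitization.inr r) = ext0 d τ x := fun x => (hmI _).1 (hext x)
  set φ : (∀ i : Fin k, Matrix (Fin (d (τ i))) (Fin (d (τ i))) K) →ₗ[K] B :=
    (R0 B).toSubmodule.subtype ∘ₗ
      (Unitization.sndHom K K (R0 B) : Unitization K (R0 B) →ₗ[K] (R0 B)) ∘ₗ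
        e.symm.toLinearMap ∘ₗ (ext0 d τ) with hφ
  have hφ' : ∀ x (r : R0 B), e (Unitization.inr r) = ext0 d τ x → φ x = r.1 := by
    intro x r hr
    have h1 : e.symm (ext0 d τ x) = Unitization.inr r := by
      rw [← hr, AlgEquiv.symm_apply_apply]
    show ((e.symm (ext0 d τ x)).snd : B) = r.1
    rw [h1, Unitization.snd_inr]
  have hmulx : ∀ x y : (∀ i : Fin k, Matrix (Fin (d (τ i))) (Fin (d (τ i))) K),
      ext0 d τ (x * y) = ext0 d τ x * ext0 d τ y := by
    intro x y
    funext l
    rw [Pi.mul_apply]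
    by_cases hl : l ∈ Set.range τ
    · obtain ⟨j, rfl⟩ := hl
      rw [ext0_apply d τ hτ, ext0_apply d τ hτ, ext0_apply d τ hτ, Pi.mul_apply]
    · rw [ext0_out d τ _ l hl, ext0_out d τ _ l hl, zero_mul]
  refine ⟨k, fun i => d (τ i), φ, ?_, ?_, ?_⟩
  · intro x y
    obtain ⟨r, hr⟩ := hex x
    obtain ⟨s, hs⟩ := hex y
    rw [hφ' x r hr, hφ' y s hs]
    apply hφ' (x * y) (r * s)
    rw [Unitization.inr_mul, map_mul, hr, hs, hmulx]
  · rw [injective_iff_map_eq_zero]
    intro x hx
    obtain ⟨r, hr⟩ := hex x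
    rw [hφ' x r hr] at hx
    have hr0 : r = 0 := Subtype.ext hx
    rw [hr0, Unitization.inr_zero, map_zero] at hr
    funext j
    rw [← ext0_apply d τ hτ x j, ← hr]
    rfl
  · apply le_antisymm
    · rintro _ ⟨x, rfl⟩
      obtain ⟨r, hr⟩ := hex x
      rw [hφ' x r hr]
      exact r.2
    · intro b hb
      refine ⟨fun j => e (Unitization.inr (⟨b, hb⟩ : R0 B)) (τ j), ?_⟩
      apply hφ' _ (⟨b, hb⟩ : R0 B)
      funext l
      by_cases hl : l ∈ Set.range τ
      · obtain ⟨j, rfl⟩ := hl
        rw [ext0_apply d τ hτ]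
      · rw [ext0_out d τ _ l hl]
        have h1 : e (Unitization.inr (⟨b, hb⟩ : R0 B)) ∈ I := (hmI _).2 ⟨_, rfl⟩
        exact (hS _).1 h1 l (by rwa [← hτS])

end Pool.Agent.E8helper40.SR
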